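import Mathlib

/-!
# Coefficient ring, positivity and quantum binomial coefficients

`R = ℤ[v^{±1}]` is `LaurentPolynomial ℤ`, with `v = T 1`.
-/

noncomputable section

namespace Pool.Agent.Work.MP_c41774_al

open LaurentPolynomial

/-- The coefficient ring `ℤ[v^{±1}]`, with `v = T 1`. -/
abbrev R : Type := LaurentPolynomial ℤ

/-- `NN f`: the Laurent polynomial `f` lies in `ℤ_{≥0}[v^{±1}]`. -/
def NN (f : R) : Prop := ∀ n : ℤ, 0 ≤ f.coeff n

/-- The quantum binomial coefficient `[n, k]_w` with `w = v^b`, defined by the Pascal rule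
`[n+1,k+1]_w = w^{k+1} [n,k+1]_w + w^{-(n-k)} [n,k]_w`. The product formula is `qb_mul_prod` in
`QBin.lean`. -/
def qb (b : ℤ) : ℕ → ℕ → R
  | _, 0 => 1
  | 0, _ + 1 => 0
  | n + 1, k + 1 =>
      T (b * ((k : ℤ) + 1)) * qb b n (k + 1) + T (-(b * ((n : ℤ) - k))) * qb b n k

end Pool.Agent.Work.MP_c41774_al
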