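import Pool.Agent.Work.MP_c41774_al.Torus

/-!
# Rank two quantum cluster algebras, strongly positive bases, the quantum greedy basis
-/

noncomputable section

namespace Pool.Agent.Work.MP_c41774_al

open LaurentPolynomial Finset

/-- `X : ℤ → QTorus` is the sequence of quantum cluster variables of `A_v(b,c)`: `X 1 = X₁`,
`X 2 = X₂`, `X_{m+1} X_{m-1} = v^b X_m^b + 1` for odd `m` and `X_{m+1} X_{m-1} = v^c X_m^c + 1` for
even `m`. -/
structure IsClusterSeq (b c : ℕ) (X : ℤ → QTorus) : Prop where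
  one : X 1 = QTorus.X1
  two : X 2 = QTorus.X2
  odd : ∀ m : ℤ, Odd m → X (m + 1) * X (m - 1) = (T (b : ℤ) : R) • X m ^ b + 1
  even : ∀ m : ℤ, Even m → X (m + 1) * X (m - 1) = (T (c : ℤ) : R) • X m ^ c + 1

/-- The quantum cluster algebra: the `ℤ[v^{±1}]`-subalgebra generated by all cluster variables. -/
def clusterAlgebra (X : ℤ → QTorus) : Subalgebra R QTorus := Algebra.adjoin R (Set.range X)

/-- The coefficient `e(p,q)` of `X^{(bp-a₁,cq-a₂)}` in `x`. -/
def coef (b c : ℕ) (a : ℤ × ℤ) (x : QTorus) (κ : ℕ × ℕ) : R :=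
  x ((b : ℤ) * κ.1 - a.1, (c : ℤ) * κ.2 - a.2)

/-- `x` is pointed at `a`: `x = ∑_{p,q ≥ 0} e(p,q) X^{(bp-a₁,cq-a₂)}` with `e(0,0) = 1`. -/
def IsPointed (b c : ℕ) (a : ℤ × ℤ) (x : QTorus) : Prop :=
  (∀ m, x m ≠ 0 → ∃ κ : ℕ × ℕ, m = ((b : ℤ) * κ.1 - a.1, (c : ℤ) * κ.2 - a.2)) ∧
    coef b c a x 0 = 1

/-- `x` is the quantum greedy element `X[a₁,a₂]`. -/
def IsGreedy (b c : ℕ) (a : ℤ × ℤ) (x : QTorus) : Prop :=
  IsPointed b c a x ∧ ∀ p q : ℕ, (p, q) ≠ (0, 0) →
    (c * a.1 * q ≤ b * a.2 * p →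
      coef b c a x (p, q) = ∑ k ∈ Finset.Icc 1 p, (-1) ^ (k - 1) * coef b c a x (p - k, q) *
        qb b ((a.2 - c * q).toNat + k - 1) k) ∧
    (b * a.2 * p ≤ c * a.1 * q →
      coef b c a x (p, q) = ∑ l ∈ Finset.Icc 1 q, (-1) ^ (l - 1) * coef b c a x (p, q - l) *
        qb c ((a.1 - b * p).toNat + l - 1) l)

/-- A family `B : ℤ² → A_v(b,c)` is a strongly positive basis (indexed by the points at which its
elements are pointed). -/
structure IsStronglyPositive (b c : ℕ) (X : ℤ → QTorus) (B : ℤ × ℤ → QTorus) : Prop where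
  /-- `B a` is pointed at `a` -/
  pointed : ∀ a, IsPointed b c a (B a)
  /-- the `B a` form a basis of the cluster algebra -/
  linearIndependent : LinearIndependent R B
  span : Submodule.span R (Set.range B) = Subalgebra.toSubmodule (clusterAlgebra X)
  /-- (1) bar-invariance -/
  bar : ∀ a, QTorus.bar (B a) = B a
  /-- (2) independence of the initial cluster -/
  shift_two : ∀ σ : clusterAlgebra X ≃ₐ[R] clusterAlgebra X,
    (∀ (m : ℤ) (x : clusterAlgebra X), (x : QTorus) = X m → (σ x : QTorus) = X (m + 2)) →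
    ∀ x : clusterAlgebra X, (x : QTorus) ∈ Set.range B ↔ (σ x : QTorus) ∈ Set.range B
  shift_one : b = c → ∀ σ : clusterAlgebra X ≃ₐ[R] clusterAlgebra X,
    (∀ (m : ℤ) (x : clusterAlgebra X), (x : QTorus) = X m → (σ x : QTorus) = X (m + 1)) →
    ∀ x : clusterAlgebra X, (x : QTorus) ∈ Set.range B ↔ (σ x : QTorus) ∈ Set.range B
  /-- (3) all quantum cluster monomials belong to the basis -/
  monomials : ∀ (m : ℤ) (i j : ℕ), (T ((i : ℤ) * j) : R) • (X m ^ i * X (m + 1) ^ j) ∈ Set.range B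
  /-- (4) positivity of the structure constants -/
  mul : ∀ a a' : ℤ × ℤ, ∃ β : (ℤ × ℤ) →₀ R, (∀ d, NN (β d)) ∧
    B a * B a' = β.sum fun d r => r • B d

/-- `Y ≤ Z`: all coefficients of the Laurent polynomial `Z - Y` are in `ℤ_{≥0}[v^{±1}]`. -/
def CoefLE (Y Z : QTorus) : Prop := ∀ m, NN ((Z - Y) m)

/-- `B` is a strongly positive basis which is a lower bound of all strongly positive bases. -/
def IsLowerBasis (b c : ℕ) (X : ℤ → QTorus) (B : ℤ × ℤ → QTorus) : Prop :=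
  IsStronglyPositive b c X B ∧
    ∀ B', IsStronglyPositive b c X B' → ∀ a, CoefLE (B a) (B' a)

end Pool.Agent.Work.MP_c41774_al
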