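import Pool.Agent.Work.MP_c41774_al.Torus

/-!
# Lemmas on the based quantum torus
-/

noncomputable section

namespace Pool.Agent.Work.MP_c41774_al

open LaurentPolynomial Finset

namespace QTorus

theorem mon_apply (m : ℤ × ℤ) (r : R) (n : ℤ × ℤ) : mon m r n = if m = n then r else 0 :=
  Finsupp.single_apply

@[ext] theorem ext {x y : QTorus} (h : ∀ m, x m = y m) : x = y := Finsupp.ext h

@[simp] theorem add_apply (x y : QTorus) (m : ℤ × ℤ) : (x + y) m = x m + y m := rfl
@[simp] theorem sub_apply (x y : QTorus) (m : ℤ × ℤ) : (x - y) m = x m - y m := rfl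
@[simp] theorem smul_apply (r : R) (x : QTorus) (m : ℤ × ℤ) : (r • x) m = r * x m := rfl
@[simp] theorem zero_apply (m : ℤ × ℤ) : (0 : QTorus) m = 0 := rfl

/-- evaluation as a linear map -/
def ev (m : ℤ × ℤ) : QTorus →ₗ[R] R := Finsupp.lapply m

@[simp] theorem ev_apply (m : ℤ × ℤ) (x : QTorus) : ev m x = x m := rfl

theorem sum_apply {ι : Type*} (s : Finset ι) (f : ι → QTorus) (m : ℤ × ℤ) :
    (∑ i ∈ s, f i) m = ∑ i ∈ s, f i m := by
  rw [← ev_apply, map_sum]; rfl

/-- The support. -/
def supp (x : QTorus) : Finset (ℤ × ℤ) := Finsupp.support x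

theorem mem_supp {x : QTorus} {m : ℤ × ℤ} : m ∈ supp x ↔ x m ≠ 0 := Finsupp.mem_support_iff

theorem sum_mon (x : QTorus) : ∑ m ∈ supp x, mon m (x m) = x := Finsupp.sum_single x

/-- `r ↦ r X^m` as a linear map -/
def lmon (m : ℤ × ℤ) : R →ₗ[R] QTorus where
  toFun := mon m
  map_add' := mon_add m
  map_smul' r s := (smul_mon m r s).symm

@[simp] theorem lmon_apply (m : ℤ × ℤ) (r : R) : lmon m r = mon m r := rfl

/-- coefficient formula for products -/
theorem mul_apply (x y : QTorus) (n : ℤ × ℤ) :
    (x * y) n = ∑ m ∈ supp x, T (Lam m (n - m)) * (x m * y (n - m)) := by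
  have key : ∀ (m : ℤ × ℤ) (r : R) (y : QTorus),
      (mon m r * y) n = T (Lam m (n - m)) * (r * y (n - m)) := by
    intro m r y
    induction y using induction with
    | h0 => simp
    | hadd y y' hy hy' =>
      rw [mul_add, add_apply, hy, hy', add_apply]; ring
    | hmon m' r' =>
      rw [mon_mul_mon, mon_apply, mon_apply]
      by_cases h : m + m' = n
      · have h' : m' = n - m := by rw [← h]; abel
        rw [if_pos h, if_pos h', h']
      · have h' : ¬ m' = n - m := fun h' => h (by rw [h']; abel)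
        rw [if_neg h, if_neg h', mul_zero, mul_zero]
  conv_lhs => rw [← sum_mon x]
  rw [Finset.sum_mul, sum_apply]
  exact Finset.sum_congr rfl fun m _ => key m (x m) y

/-- The defining relation `X₂ X₁ = v² X₁ X₂`. -/
theorem X2_mul_X1 : X2 * X1 = (T 2 : R) • (X1 * X2) := by
  rw [X1, X2, mon_mul_mon, mon_mul_mon, smul_mon]
  simp only [Prod.mk_add_mk, Lam, mul_one, ← T_add]
  norm_num

/-- `X₁` is invertible with inverse `X^{(-1,0)}`. -/
theorem X1_mul_inv : X1 * mon (-1, 0) 1 = 1 := by
  rw [X1, mon_mul_mon, one_def]; simp [Lam]; rfl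

theorem inv_mul_X1 : mon (-1, 0) 1 * X1 = 1 := by
  rw [X1, mon_mul_mon, one_def]; simp [Lam]; rfl

theorem X2_mul_inv : X2 * mon (0, -1) 1 = 1 := by
  rw [X2, mon_mul_mon, one_def]; simp [Lam]; rfl

theorem inv_mul_X2 : mon (0, -1) 1 * X2 = 1 := by
  rw [X2, mon_mul_mon, one_def]; simp [Lam]; rfl

/-- `(X^m)^n = X^{n m}`. -/
theorem mon_pow (m : ℤ × ℤ) (n : ℕ) : mon m 1 ^ n = mon (n • m) 1 := by
  induction n with
  | zero => simp [one_def]
  | succ n ih =>
    rw [pow_succ, ih, mon_mul_mon]
    have : Lam (n • m) m = 0 := by simp [Lam]; ring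
    rw [this, T_zero, mul_one, mul_one, succ_nsmul]

/-- `X^{(i,j)} = v^{ij} X₁^i X₂^j` for `i, j ≥ 0`. -/
theorem mon_eq (i j : ℕ) : (mon ((i : ℤ), (j : ℤ)) 1 : QTorus) =
    (T ((i : ℤ) * j) : R) • (X1 ^ i * X2 ^ j) := by
  rw [X1, X2, mon_pow, mon_pow, mon_mul_mon, smul_mon]
  simp only [Prod.smul_mk, nsmul_eq_mul, mul_one, mul_zero, Prod.mk_add_mk, add_zero, zero_add,
    Lam, ← T_add]
  congr 1
  rw [← T_zero]
  congr 1
  ring

@[simp] theorem bar_apply (x : QTorus) (m : ℤ × ℤ) : bar x m = invert (x m) :=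
  Finsupp.mapRange_apply

theorem bar_add (x y : QTorus) : bar (x + y) = bar x + bar y := by
  ext m; simp

theorem bar_smul (r : R) (x : QTorus) : bar (r • x) = invert r • bar x := by
  ext1 m; simp

theorem bar_mon (m : ℤ × ℤ) (r : R) : bar (mon m r) = mon m (invert r) := by
  ext1 n
  rw [bar_apply, mon_apply, mon_apply]
  split_ifs <;> simp

theorem bar_X1 : bar X1 = X1 := by rw [X1, bar_mon, map_one]
theorem bar_X2 : bar X2 = X2 := by rw [X2, bar_mon, map_one]

/-- `bar` is an anti-automorphism. -/
theorem bar_mul (x y : QTorus) : bar (x * y) = bar y * bar x := by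
  induction x using induction with
  | h0 =>
    have : bar 0 = 0 := by ext1 m; simp
    rw [zero_mul, this, mul_zero]
  | hadd x x' hx hx' => rw [add_mul, bar_add, bar_add, mul_add, hx, hx']
  | hmon m r =>
    induction y using induction with
    | h0 =>
      have : bar 0 = 0 := by ext1 m; simp
      rw [mul_zero, this, zero_mul]
    | hadd y y' hy hy' => rw [mul_add, bar_add, bar_add, add_mul, hy, hy']
    | hmon m' r' =>
      rw [mon_mul_mon, bar_mon, bar_mon, bar_mon, mon_mul_mon, add_comm]
      congr 1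
      rw [map_mul, map_mul, invert_T, mul_comm (invert r)]
      congr 2
      simp only [Lam]; ring

theorem bar_bar (x : QTorus) : bar (bar x) = x := by
  ext1 m
  rw [bar_apply, bar_apply]
  exact involutive_invert _

/-- The quantum torus has no zero divisors. -/
instance : NoZeroDivisors QTorus where
  eq_zero_or_eq_zero_of_mul_eq_zero := by
    intro x y hxy
    by_contra hcon
    push Not at hcon
    obtain ⟨hx, hy⟩ := hcon
    have hsx : (supp x).Nonempty := by
      by_contra h
      apply hx
      rw [Finset.not_nonempty_iff_eq_empty] at h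
      ext1 m
      by_contra hm
      have := mem_supp.mpr hm
      rw [h] at this
      simp at this
    have hsy : (supp y).Nonempty := by
      by_contra h
      apply hy
      rw [Finset.not_nonempty_iff_eq_empty] at h
      ext1 m
      by_contra hm
      have := mem_supp.mpr hm
      rw [h] at this
      simp at this
    obtain ⟨m, hm, m', hm', huniq⟩ := UniqueSums.uniqueAdd_of_nonempty hsx hsy
    have h0 : (x * y) (m + m') = 0 := by rw [hxy]; rfl
    rw [mul_apply, Finset.sum_eq_single m] at h0
    · rw [add_sub_cancel_left] at h0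
      have h1 := mem_supp.mp hm
      have h2 := mem_supp.mp hm'
      rcases mul_eq_zero.mp h0 with h | h
      · exact (isUnit_T (Lam m m')).ne_zero h
      · rcases mul_eq_zero.mp h with h | h
        · exact h1 h
        · exact h2 h
    · intro n hn hne
      by_contra hcon
      have h1 : y (m + m' - n) ≠ 0 := by
        intro h
        apply hcon
        rw [h, mul_zero, mul_zero]
      have := huniq hn (mem_supp.mpr h1) (by abel)
      exact hne this.1
    · intro h; exact absurd hm h

end QTorus

end Pool.Agent.Work.MP_c41774_al
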