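import Pool.Agent.Work.MP_c41774_al.Bd.B01

/-!
# Positivity of greedy elements in the strips `a₁ ≤ b` and `a₂ ≤ c`, and comparison with strongly
positive bases
-/

noncomputable section

namespace Pool.Agent.Work.MP_c41774_al

open LaurentPolynomial Finset

section

variable {b c : ℤ} {g : ℤ × ℤ → ℕ × ℕ → R}

theorem coef_of_H {a : ℤ × ℤ} {x : ℕ × ℕ → R} {f : ℕ → R}
    (h : ∀ p q, H b c a x (p, q) = if p = 0 then f q else 0) (κ : ℕ × ℕ) :
    x κ = f κ.2 * qb b (ht c a κ.2) κ.1 := by
  have h1 := congrArg (PowerSeries.coeff κ.1) (row_H_mul b c a x κ.2)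
  rw [coeff_row, PowerSeries.coeff_mul, Finset.sum_eq_single (0, κ.1)] at h1
  · rw [coeff_row, h, if_pos rfl, coeff_P] at h1
    exact h1.symm
  · intro A hA hne
    have hA := Finset.HasAntidiagonal.mem_antidiagonal.mp hA
    rw [coeff_row, h, if_neg, zero_mul]
    intro h0
    apply hne
    exact Prod.ext h0 (by simp only; omega)
  · intro h; exact absurd (by simp) h

/-- the first column of a greedy element, for `a₁ > 0` or any `a₁` -/
theorem GreedyFam.first_col (hc : 0 ≤ c) (hg : GreedyFam b c g) {a : ℤ × ℤ} (h1 : 0 ≤ a.1)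
    (q : ℕ) : g a (0, q) = qb c a.1.toNat q := by
  have key : ∀ p, fl (g a) (p, 0) = 1 * qb c (ht b a.swap 0) p := by
    intro p
    have hrow : MP_c41774_al.row (H c b a.swap (fl (g a))) 0 = 1 := by
      ext1 p'
      rw [coeff_row, PowerSeries.coeff_one]
      rcases p' with _ | p'
      · rw [if_pos rfl]
        have : H c b a.swap (fl (g a)) (0, 0) = fl (g a) (0, 0) := H_zero_zero _ _ _ _ _
        rw [this]
        exact hg.one a
      · rw [if_neg (by omega)]
        have := hg.col a (0, p' + 1) (by simp) (by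
          simp only [LL]
          have : 0 ≤ c * ((p' + 1 : ℕ) : ℤ) * a.1 := by positivity
          push_cast at this ⊢
          linarith)
        exact this
    have h2 := congrArg (PowerSeries.coeff p) (row_H_mul c b a.swap (fl (g a)) 0)
    rw [hrow, one_mul, coeff_P, coeff_row] at h2
    rw [one_mul, ← h2]
  have := key q
  rw [one_mul] at this
  simp only [fl_apply, ht, Prod.swap_prod_mk, Prod.snd_swap, Nat.cast_zero, mul_zero,
    sub_zero] at this
  exact this

/-- explicit formula for greedy elements in the strip `0 ≤ a₁ ≤ b`, `0 ≤ a₂`. -/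
theorem GreedyFam.strip (hb : 0 < b) (hc : 0 < c) (hg : GreedyFam b c g) {a : ℤ × ℤ}
    (h1 : 0 ≤ a.1) (h1' : a.1 ≤ b) (κ : ℕ × ℕ) :
    g a κ = qb c a.1.toNat κ.2 * qb b (ht c a κ.2) κ.1 := by
  refine coef_of_H (b := b) (c := c) (f := fun q => qb c a.1.toNat q) (fun p q => ?_) κ
  by_cases hp : p = 0
  · rw [if_pos hp, hp, H_zero_zero, hg.first_col hc.le h1]
  · rw [if_neg hp]
    rcases le_or_gt 0 (LL b c (p, q) a) with hL | hL
    · exact hg.row a _ (by simp [hp]) hL
    · have hp1 : 1 ≤ (p : ℤ) := by omega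
      have hq0 : (0 : ℤ) ≤ q := by positivity
      have hwid : a.1 - b * p ≤ 0 := by nlinarith
      have hht : a.2 - c * q ≤ 0 := by
        simp only [LL] at hL
        by_contra hcon
        push Not at hcon
        have e1 : 0 < a.2 := by nlinarith
        have e2 : b * a.2 ≤ b * p * a.2 := by nlinarith [mul_pos hb e1]
        have e3 : c * q * a.1 ≤ c * q * b := by
          have : 0 ≤ c * (q : ℤ) := by positivity
          nlinarith
        have e4 : b * (c * q) < b * a.2 := by nlinarith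
        nlinarith
      have hcol := hg.col a (p, q) (by simp [hp]) hL.le
      rw [Ht, H] at hcol
      simp only [Prod.snd_swap, Prod.swap_prod_mk, ht] at hcol
      rw [Int.toNat_of_nonpos hwid, Pinv_zero, mul_one, coeff_row] at hcol
      rw [H]
      simp only [ht]
      rw [Int.toNat_of_nonpos hht, Pinv_zero, mul_one, coeff_row]
      simpa using hcol

/-- coefficients of greedy elements pointed at `a` with `a₁ ≤ 0` -/
theorem GreedyFam.left (hb : 0 < b) (hc : 0 < c) (hg : GreedyFam b c g) {a : ℤ × ℤ}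
    (h1 : a.1 ≤ 0) (κ : ℕ × ℕ) : NN (g a κ) := by
  rcases le_or_gt 0 a.2 with h2 | h2
  · have := coef_of_H (b := b) (c := c) (a := a) (x := g a) (f := fun q => if q = 0 then 1 else 0)
      (fun p q => ?_) κ
    · rw [this]
      split_ifs
      · rw [one_mul]; exact NN_qb _ _ _
      · rw [zero_mul]; exact NN_zero
    · by_cases h0 : (p, q) = (0, 0)
      · obtain ⟨rfl, rfl⟩ := Prod.mk.injEq _ _ _ _ ▸ h0
        rw [if_pos rfl, if_pos rfl, H_zero_zero]
        exact hg.one a
      · rw [hg.row a (p, q) h0]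
        · by_cases hp : p = 0
          · rw [if_pos hp, if_neg]
            rintro rfl
            exact h0 (by rw [hp])
          · rw [if_neg hp]
        · simp only [LL]
          have e1 : 0 ≤ b * (p : ℤ) * a.2 := by positivity
          have e2 : 0 ≤ c * (q : ℤ) := by positivity
          have e3 := mul_nonneg e2 (neg_nonneg.mpr h1)
          linarith
  · by_cases h0 : κ = 0
    · rw [h0, hg.one]; exact NN_one
    · rw [hg.vanish h0]
      · exact NN_zero
      · have : 0 ≤ b * (κ.1 : ℤ) := by positivity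
        omega
      · have : 0 ≤ c * (κ.2 : ℤ) := by positivity
        omega

theorem GreedyFam.nonneg_left (hb : 0 < b) (hc : 0 < c) (hg : GreedyFam b c g) {a : ℤ × ℤ}
    (h : a.1 ≤ b) (κ : ℕ × ℕ) : NN (g a κ) := by
  rcases le_total 0 a.1 with h1 | h1
  · rw [hg.strip hb hc h1 h]
    exact (NN_qb _ _ _).mul (NN_qb _ _ _)
  · exact hg.left hb hc h1 κ

/-- greedy elements in the two strips have nonnegative coefficients -/
theorem GreedyFam.nonneg (hb : 0 < b) (hc : 0 < c) (hg : GreedyFam b c g) {a : ℤ × ℤ}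
    (h : a.1 ≤ b ∨ a.2 ≤ c) (κ : ℕ × ℕ) : NN (g a κ) := by
  rcases h with h | h
  · exact hg.nonneg_left hb hc h κ
  · have := hg.flip.nonneg_left hc hb (a := a.swap) h κ.swap
    rwa [flf_apply, Prod.swap_swap, Prod.swap_swap] at this

end

variable {b c : ℕ} {X : ℤ → QTorus}

theorem greedy_nonneg_strip (hb : 0 < b) (hc : 0 < c) {G : ℤ × ℤ → QTorus}
    (hG : ∀ a, IsGreedy b c a (G a)) {a : ℤ × ℤ} (h : a.1 ≤ b ∨ a.2 ≤ c) (m : ℤ × ℤ) :
    NN (G a m) := by
  have hb' : (0 : ℤ) < b := by exact_mod_cast hb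
  have hc' : (0 : ℤ) < c := by exact_mod_cast hc
  by_cases hm : ∃ κ, m = kk b c κ - a
  · obtain ⟨κ, rfl⟩ := hm
    exact (greedyFam_of_isGreedy hG).nonneg hb' hc' h κ
  · have : G a m = 0 := by
      by_contra h
      exact hm ((hG a).1.1 m h)
    rw [this]
    exact NN_zero

/-- **Local comparison.** `X[a] ≤ B[a]` as soon as the finitely many greedy elements
`X[a₁ - bp, a₂ - cq]` with `(p,q) ≠ (0,0)`, `a₁ - bp > b`, `a₂ - cq > c` have nonnegative
coefficients. -/
theorem greedy_le_local (hb : 0 < b) (hc : 0 < c) (hX : IsClusterSeq b c X)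
    {G : ℤ × ℤ → QTorus} (hG : ∀ a, IsGreedy b c a (G a)) {B : ℤ × ℤ → QTorus}
    (hB : IsStronglyPositive b c X B) (a : ℤ × ℤ)
    (hpos : ∀ p q : ℕ, (p, q) ≠ (0, 0) → (b : ℤ) < a.1 - b * p → (c : ℤ) < a.2 - c * q →
      ∀ m, NN (G (a.1 - b * p, a.2 - c * q) m)) : CoefLE (G a) (B a) := by
  classical
  obtain ⟨ρ, h0, hρ, hsum⟩ := sp_expansion hb hc hX hG hB a
  intro m
  rw [hsum, Finsupp.sum, QTorus.sub_apply, QTorus.sum_apply,
    ← Finset.add_sum_erase _ _ (Finsupp.mem_support_iff.mpr (by rw [h0]; exact one_ne_zero) :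
      (0 : ℕ × ℕ) ∈ ρ.support)]
  have e1 : (ρ 0 • G (a.1 - b * ((0 : ℕ × ℕ).1 : ℕ), a.2 - c * ((0 : ℕ × ℕ).2 : ℕ))) m =
      G a m := by
    rw [h0, one_smul]; simp
  rw [e1, add_sub_cancel_left]
  refine NN.sum fun κ hκ => ?_
  rw [Finset.mem_erase] at hκ
  rw [QTorus.smul_apply]
  refine (hρ κ).mul ?_
  by_cases h1 : (b : ℤ) < a.1 - b * κ.1 ∧ (c : ℤ) < a.2 - c * κ.2
  · exact hpos κ.1 κ.2 hκ.1 h1.1 h1.2 m
  · refine greedy_nonneg_strip hb hc hG ?_ m
    simp only
    omega

end Pool.Agent.Work.MP_c41774_al
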