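import Pool.Agent.Work.MP_c41774_al.QBin

/-!
# Formal pointed series: products, row transforms, expansions
-/

noncomputable section

namespace Pool.Agent.Work.MP_c41774_al

open LaurentPolynomial Finset

/-- The exponent shift `(b p, c q)` of `(p,q)`. -/
def kk (b c : ℤ) (κ : ℕ × ℕ) : ℤ × ℤ := (b * κ.1, c * κ.2)

@[simp] theorem kk_fst (b c : ℤ) (κ : ℕ × ℕ) : (kk b c κ).1 = b * κ.1 := rfl
@[simp] theorem kk_snd (b c : ℤ) (κ : ℕ × ℕ) : (kk b c κ).2 = c * κ.2 := rfl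

/-- The linear form `L((p,q),a) = b a₂ p - c a₁ q`. -/
def LL (b c : ℤ) (κ : ℕ × ℕ) (a : ℤ × ℤ) : ℤ := b * κ.1 * a.2 - c * κ.2 * a.1

/-- Exponent of `v` in the product of `X^{(bp₁-a₁,cq₁-a₂)}` and `X^{(bp₂-u₁,cq₂-u₂)}`. -/
def tw (b c : ℤ) (a u : ℤ × ℤ) (κ₁ κ₂ : ℕ × ℕ) : ℤ :=
  (c * κ₁.2 - a.2) * (b * κ₂.1 - u.1) - (b * κ₁.1 - a.1) * (c * κ₂.2 - u.2)

/-- Product of formal series pointed at `a` and at `u`. -/
def conv (b c : ℤ) (a u : ℤ × ℤ) (x y : ℕ × ℕ → R) (κ : ℕ × ℕ) : R :=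
  ∑ A ∈ antidiagonal κ.1, ∑ B ∈ antidiagonal κ.2,
    T (tw b c a u (A.1, B.1) (A.2, B.2)) * (x (A.1, B.1) * y (A.2, B.2))

/-- the flip of a coefficient function -/
def fl (x : ℕ × ℕ → R) : ℕ × ℕ → R := fun κ => x κ.swap

@[simp] theorem fl_apply (x : ℕ × ℕ → R) (κ : ℕ × ℕ) : fl x κ = x κ.swap := rfl

@[simp] theorem fl_fl (x : ℕ × ℕ → R) : fl (fl x) = x := by
  funext κ; simp

theorem conv_flip (b c : ℤ) (a u : ℤ × ℤ) (x y : ℕ × ℕ → R) (κ : ℕ × ℕ) :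
    conv c b u.swap a.swap (fl y) (fl x) κ.swap = conv b c a u x y κ := by
  simp only [conv, Prod.fst_swap, Prod.snd_swap, fl_apply, Prod.swap_prod_mk]
  rw [Finset.sum_comm, ← Finset.Nat.sum_antidiagonal_swap]
  refine Finset.sum_congr rfl fun A _ => ?_
  rw [← Finset.Nat.sum_antidiagonal_swap]
  refine Finset.sum_congr rfl fun B _ => ?_
  simp only [Prod.fst_swap, Prod.snd_swap]
  rw [mul_comm (y _)]
  congr 2
  simp only [tw, Prod.fst_swap, Prod.snd_swap]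
  ring

/-- The `q`-th row of a coefficient function, as a power series. -/
def row (x : ℕ × ℕ → R) (q : ℕ) : PowerSeries R := PowerSeries.mk fun p => x (p, q)

@[simp] theorem coeff_row (x : ℕ × ℕ → R) (p q : ℕ) :
    PowerSeries.coeff p (row x q) = x (p, q) := by simp [row]

/-- The height of row `q` for base point `a`. -/
def ht (c : ℤ) (a : ℤ × ℤ) (q : ℕ) : ℕ := (a.2 - c * q).toNat

/-- Row transform of a formal series pointed at `a`: divide the row `q` by `P_n`,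
`n = [a₂ - c q]_+`. -/
def H (b c : ℤ) (a : ℤ × ℤ) (x : ℕ × ℕ → R) (κ : ℕ × ℕ) : R :=
  PowerSeries.coeff κ.1 (row x κ.2 * Pinv b (ht c a κ.2))

/-- Column transform. -/
def Ht (b c : ℤ) (a : ℤ × ℤ) (x : ℕ × ℕ → R) (κ : ℕ × ℕ) : R :=
  H c b a.swap (fl x) κ.swap

theorem row_H (b c : ℤ) (a : ℤ × ℤ) (x : ℕ × ℕ → R) (q : ℕ) :
    row (H b c a x) q = row x q * Pinv b (ht c a q) := by
  ext1 p
  rw [coeff_row, H]

theorem row_H_mul (b c : ℤ) (a : ℤ × ℤ) (x : ℕ × ℕ → R) (q : ℕ) :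
    row (H b c a x) q * P b (ht c a q) = row x q := by
  rw [row_H, mul_assoc, mul_comm (Pinv _ _), P_mul_Pinv, mul_one]

theorem H_zero_zero (b c : ℤ) (a : ℤ × ℤ) (x : ℕ × ℕ → R) (q : ℕ) :
    H b c a x (0, q) = x (0, q) := by
  rw [H, PowerSeries.coeff_mul]
  simp

/-- `H` in terms of the greedy recursion. -/
theorem H_eq (b c : ℤ) (a : ℤ × ℤ) (x : ℕ × ℕ → R) (κ : ℕ × ℕ) :
    H b c a x κ = x κ - ∑ k ∈ Finset.Icc 1 κ.1,
      (-1) ^ (k - 1) * x (κ.1 - k, κ.2) * qb b (ht c a κ.2 + k - 1) k := by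
  obtain ⟨p, q⟩ := κ
  simp only [H, PowerSeries.coeff_mul, coeff_row, coeff_Pinv]
  rw [← Finset.Nat.sum_antidiagonal_swap]
  simp only [Prod.fst_swap, Prod.snd_swap]
  rw [Finset.Nat.sum_antidiagonal_eq_sum_range_succ_mk, Finset.sum_range_succ']
  simp only [tsub_zero, pow_zero, qb_zero_right, mul_one]
  rw [add_comm, sub_eq_add_neg]
  congr 1
  rw [← Finset.sum_neg_distrib, Finset.range_eq_Ico, Finset.sum_Ico_add' (f := fun k =>
    x (p - k, q) * ((-1) ^ k * qb b (ht c a q + k - 1) k)) 0 p 1]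
  have : Finset.Ico (0 + 1) (p + 1) = Finset.Icc 1 p := by
    ext k; simp
  rw [this]
  refine Finset.sum_congr rfl fun k hk => ?_
  obtain ⟨k, rfl⟩ : ∃ j, k = j + 1 := ⟨k - 1, by have := Finset.mem_Icc.mp hk; omega⟩
  rw [Nat.add_sub_cancel, pow_succ]
  ring

theorem H_congr {b c : ℤ} {a : ℤ × ℤ} {x y : ℕ × ℕ → R} {κ : ℕ × ℕ}
    (h : ∀ κ' ≤ κ, x κ' = y κ') : H b c a x κ = H b c a y κ := by
  rw [H_eq, H_eq, h κ le_rfl]
  congr 1
  refine Finset.sum_congr rfl fun k _ => ?_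
  rw [h (κ.1 - k, κ.2) ⟨Nat.sub_le _ _, le_rfl⟩]

/-- if the row transforms of `x` and `y` agree on a down-closed region then so do `x`, `y`: one
step -/
theorem eq_of_H_eq {b c : ℤ} {a : ℤ × ℤ} {x y : ℕ × ℕ → R} {κ : ℕ × ℕ}
    (h : ∀ κ' < κ, x κ' = y κ') (hH : H b c a x κ = H b c a y κ) : x κ = y κ := by
  rw [H_eq, H_eq] at hH
  have : ∑ k ∈ Finset.Icc 1 κ.1,
      (-1) ^ (k - 1) * x (κ.1 - k, κ.2) * qb b (ht c a κ.2 + k - 1) k =
      ∑ k ∈ Finset.Icc 1 κ.1,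
      (-1) ^ (k - 1) * y (κ.1 - k, κ.2) * qb b (ht c a κ.2 + k - 1) k := by
    refine Finset.sum_congr rfl fun k hk => ?_
    have hk := Finset.mem_Icc.mp hk
    rw [h (κ.1 - k, κ.2)]
    refine Prod.mk_lt_mk.mpr (Or.inl ⟨by omega, le_rfl⟩)
  rw [this] at hH
  exact sub_left_injective hH

/-- linearity of the row transform -/
theorem H_sum {ι : Type*} (b c : ℤ) (a : ℤ × ℤ) (s : Finset ι) (r : ι → R)
    (x : ι → ℕ × ℕ → R) (κ : ℕ × ℕ) :
    H b c a (fun κ' => ∑ i ∈ s, r i * x i κ') κ = ∑ i ∈ s, r i * H b c a (x i) κ := by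
  simp only [H, PowerSeries.coeff_mul, coeff_row, Finset.sum_mul, Finset.mul_sum]
  rw [Finset.sum_comm]
  refine Finset.sum_congr rfl fun i _ => Finset.sum_congr rfl fun A _ => ?_
  ring

/-- linearity of `conv` in the first argument -/
theorem conv_sum {ι : Type*} (b c : ℤ) (a u : ℤ × ℤ) (s : Finset ι) (r : ι → R)
    (x : ι → ℕ × ℕ → R) (y : ℕ × ℕ → R) (κ : ℕ × ℕ) :
    conv b c a u (fun κ' => ∑ i ∈ s, r i * x i κ') y κ =
      ∑ i ∈ s, r i * conv b c a u (x i) y κ := by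
  simp only [conv, Finset.sum_mul, Finset.mul_sum]
  symm
  rw [Finset.sum_comm]
  refine Finset.sum_congr rfl fun A _ => ?_
  rw [Finset.sum_comm]
  refine Finset.sum_congr rfl fun B _ => Finset.sum_congr rfl fun i _ => ?_
  ring

theorem conv_congr {b c : ℤ} {a u : ℤ × ℤ} {x x' y y' : ℕ × ℕ → R} {κ : ℕ × ℕ}
    (hx : ∀ κ' ≤ κ, x κ' = x' κ') (hy : ∀ κ' ≤ κ, y κ' = y' κ') :
    conv b c a u x y κ = conv b c a u x' y' κ := by
  refine Finset.sum_congr rfl fun A hA => Finset.sum_congr rfl fun B hB => ?_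
  have hA := Finset.HasAntidiagonal.mem_antidiagonal.mp hA
  have hB := Finset.HasAntidiagonal.mem_antidiagonal.mp hB
  rw [hx _ (Prod.mk_le_mk.mpr ⟨by omega, by omega⟩ : (A.1, B.1) ≤ κ),
    hy _ (Prod.mk_le_mk.mpr ⟨by omega, by omega⟩ : (A.2, B.2) ≤ κ)]

/-- the coefficient function, relative to base point `s`, of the element `g (s - kk κ')`. -/
def M (b c : ℤ) (g : ℤ × ℤ → ℕ × ℕ → R) (s : ℤ × ℤ) (κ' κ : ℕ × ℕ) : R :=
  if κ' ≤ κ then g (s - kk b c κ') (κ - κ') else 0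

theorem M_of_le {b c : ℤ} {g : ℤ × ℤ → ℕ × ℕ → R} {s : ℤ × ℤ} {κ' κ : ℕ × ℕ} (h : κ' ≤ κ) :
    M b c g s κ' κ = g (s - kk b c κ') (κ - κ') := if_pos h

theorem M_of_not_le {b c : ℤ} {g : ℤ × ℤ → ℕ × ℕ → R} {s : ℤ × ℤ} {κ' κ : ℕ × ℕ}
    (h : ¬ κ' ≤ κ) : M b c g s κ' κ = 0 := if_neg h

theorem M_add {b c : ℤ} {g : ℤ × ℤ → ℕ × ℕ → R} {s : ℤ × ℤ} (κ' δ : ℕ × ℕ) :
    M b c g s κ' (κ' + δ) = g (s - kk b c κ') δ := by
  rw [M_of_le (le_add_of_nonneg_right zero_le), add_tsub_cancel_left]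

/-- rows of a shifted series -/
theorem H_M (b c : ℤ) (g : ℤ × ℤ → ℕ × ℕ → R) (s : ℤ × ℤ) (κ' κ : ℕ × ℕ) :
    H b c s (M b c g s κ') κ =
      if κ' ≤ κ then H b c (s - kk b c κ') (g (s - kk b c κ')) (κ - κ') else 0 := by
  obtain ⟨i, j⟩ := κ'
  obtain ⟨p, q⟩ := κ
  by_cases hj : j ≤ q
  · have hrow : row (M b c g s (i, j)) q =
        PowerSeries.X ^ i * row (g (s - kk b c (i, j))) (q - j) := by
      ext1 p'
      rw [coeff_row, PowerSeries.coeff_X_pow_mul', coeff_row]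
      by_cases hi : i ≤ p'
      · rw [if_pos hi, M_of_le (Prod.mk_le_mk.mpr ⟨hi, hj⟩)]
        rfl
      · rw [if_neg hi, M_of_not_le]
        exact fun h => hi (Prod.mk_le_mk.mp h).1
    have hht : ht c s q = ht c (s - kk b c (i, j)) (q - j) := by
      simp only [ht, Prod.snd_sub, kk_snd]
      congr 1
      push_cast [Nat.cast_sub hj]
      ring
    simp only [H]
    rw [hrow, mul_assoc, PowerSeries.coeff_X_pow_mul', hht]
    by_cases hi : i ≤ p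
    · rw [if_pos hi, if_pos (Prod.mk_le_mk.mpr ⟨hi, hj⟩)]
      rfl
    · rw [if_neg hi, if_neg (fun h => hi (Prod.mk_le_mk.mp h).1)]
  · have hrow : row (M b c g s (i, j)) q = 0 := by
      ext1 p'
      rw [coeff_row, M_of_not_le (fun h => hj (Prod.mk_le_mk.mp h).2), map_zero]
    simp only [H]
    rw [hrow, zero_mul, map_zero, if_neg (fun h => hj (Prod.mk_le_mk.mp h).2)]

/-- row formula for the product -/
theorem row_conv (b c : ℤ) (a u : ℤ × ℤ) (x y : ℕ × ℕ → R) (q : ℕ) :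
    row (conv b c a u x y) q = ∑ B ∈ antidiagonal q,
      PowerSeries.C (T ((a.2 - c * B.1) * u.1 - a.1 * (u.2 - c * B.2)) : R) *
        (PowerSeries.rescale (T (b * (u.2 - c * B.2))) (row x B.1) *
          PowerSeries.rescale (T (-(b * (a.2 - c * B.1)))) (row y B.2)) := by
  ext1 p
  rw [coeff_row, map_sum, conv]
  rw [Finset.sum_comm]
  refine Finset.sum_congr rfl fun B _ => ?_
  rw [PowerSeries.coeff_C_mul, PowerSeries.coeff_mul, Finset.mul_sum]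
  refine Finset.sum_congr rfl fun A _ => ?_
  rw [PowerSeries.coeff_rescale, PowerSeries.coeff_rescale, coeff_row, coeff_row, T_pow, T_pow]
  have : (tw b c a u (A.1, B.1) (A.2, B.2)) =
      ((a.2 - c * B.1) * u.1 - a.1 * (u.2 - c * B.2)) +
        ((A.1 : ℤ) * (b * (u.2 - c * B.2)) + (A.2 : ℤ) * (-(b * (a.2 - c * B.1)))) := by
    simp only [tw]; ring
  rw [this, T_add, T_add]
  ring

theorem Pinv_mul_Pinv (b : ℤ) (n₁ n₂ : ℕ) :
    PowerSeries.rescale (T (b * n₂)) (Pinv b n₁) *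
      PowerSeries.rescale (T (-(b * n₁))) (Pinv b n₂) = Pinv b (n₁ + n₂) := by
  have h := P_mul_P b n₁ n₂
  have h0 := P_mul_Pinv b (n₁ + n₂)
  have h1 : PowerSeries.rescale (T (b * n₂)) (P b n₁) *
      PowerSeries.rescale (T (b * n₂)) (Pinv b n₁) = 1 := by
    rw [← map_mul, P_mul_Pinv, map_one]
  have h2 : PowerSeries.rescale (T (-(b * n₁))) (P b n₂) *
      PowerSeries.rescale (T (-(b * n₁))) (Pinv b n₂) = 1 := by
    rw [← map_mul, P_mul_Pinv, map_one]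
  rw [← h] at h0
  calc _ = PowerSeries.rescale (T (b * n₂)) (Pinv b n₁) *
      PowerSeries.rescale (T (-(b * n₁))) (Pinv b n₂) *
      (PowerSeries.rescale (T (b * n₂)) (P b n₁) *
        PowerSeries.rescale (T (-(b * n₁))) (P b n₂) * Pinv b (n₁ + n₂)) := by
        rw [h0, mul_one]
    _ = (PowerSeries.rescale (T (b * n₂)) (P b n₁) *
      PowerSeries.rescale (T (b * n₂)) (Pinv b n₁)) *
      (PowerSeries.rescale (T (-(b * n₁))) (P b n₂) *
      PowerSeries.rescale (T (-(b * n₁))) (Pinv b n₂)) * Pinv b (n₁ + n₂) := by ring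
    _ = _ := by rw [h1, h2, one_mul, one_mul]

/-- Support of the row transform of a product, in the region of nonnegative heights. -/
theorem H_conv_ne_zero {b c : ℤ} (hc : 0 ≤ c) {a u : ℤ × ℤ} {x y : ℕ × ℕ → R} {κ : ℕ × ℕ}
    (ha : 0 ≤ a.2 - c * κ.2) (hu : 0 ≤ u.2 - c * κ.2)
    (h : H b c (a + u) (conv b c a u x y) κ ≠ 0) :
    ∃ κ₁ κ₂ : ℕ × ℕ, κ₁ + κ₂ = κ ∧ H b c a x κ₁ ≠ 0 ∧ H b c u y κ₂ ≠ 0 := by
  by_contra hcon
  push Not at hcon
  apply h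
  rw [H, row_conv, Finset.sum_mul, map_sum]
  refine Finset.sum_eq_zero fun B hB => ?_
  have hB := Finset.HasAntidiagonal.mem_antidiagonal.mp hB
  have hB1 : (B.1 : ℤ) ≤ κ.2 := by exact_mod_cast (by omega : B.1 ≤ κ.2)
  have hB2 : (B.2 : ℤ) ≤ κ.2 := by exact_mod_cast (by omega : B.2 ≤ κ.2)
  have hB12 : (B.1 : ℤ) + B.2 = κ.2 := by exact_mod_cast hB
  have e1 : ((ht c a B.1 : ℕ) : ℤ) = a.2 - c * B.1 := by
    rw [ht, Int.toNat_of_nonneg]; nlinarith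
  have e2 : ((ht c u B.2 : ℕ) : ℤ) = u.2 - c * B.2 := by
    rw [ht, Int.toNat_of_nonneg]; nlinarith
  have e3 : ht c (a + u) κ.2 = ht c a B.1 + ht c u B.2 := by
    have : ((ht c (a + u) κ.2 : ℕ) : ℤ) = ((ht c a B.1 + ht c u B.2 : ℕ) : ℤ) := by
      push_cast
      rw [e1, e2, ht, Int.toNat_of_nonneg]
      · simp only [Prod.snd_add]; rw [← hB12]; ring
      · simp only [Prod.snd_add]; nlinarith
    exact_mod_cast this
  rw [e3, ← Pinv_mul_Pinv, e1, e2, mul_assoc, PowerSeries.coeff_C_mul]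
  have e4 : (PowerSeries.rescale (T (b * (u.2 - c * B.2)))) (row x B.1) *
      (PowerSeries.rescale (T (-(b * (a.2 - c * B.1))))) (row y B.2) *
      ((PowerSeries.rescale (T (b * (u.2 - c * B.2)))) (Pinv b (ht c a B.1)) *
      (PowerSeries.rescale (T (-(b * (a.2 - c * B.1))))) (Pinv b (ht c u B.2))) =
      (PowerSeries.rescale (T (b * (u.2 - c * B.2)))) (row (H b c a x) B.1) *
      (PowerSeries.rescale (T (-(b * (a.2 - c * B.1))))) (row (H b c u y) B.2) := by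
    rw [row_H, row_H, map_mul, map_mul]; ring
  rw [e4, PowerSeries.coeff_mul]
  apply mul_eq_zero_of_right
  refine Finset.sum_eq_zero fun A hA => ?_
  have hA := Finset.HasAntidiagonal.mem_antidiagonal.mp hA
  rw [PowerSeries.coeff_rescale, PowerSeries.coeff_rescale, coeff_row, coeff_row]
  by_cases h1 : H b c a x (A.1, B.1) = 0
  · rw [h1]; ring
  · rw [hcon (A.1, B.1) (A.2, B.2) (by ext <;> simp [hA, hB]) h1]; ring

end Pool.Agent.Work.MP_c41774_al
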