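import Pool.Agent.Work.MP_c41774_al.Greedy

/-!
# The quantum greedy basis is the lower bound basis if and only if it is strongly positive
-/

noncomputable section

namespace Pool.Agent.Results.MP_c41774_al.LowerIff

open Pool.Agent.Work.MP_c41774_al LaurentPolynomial

/-- For all `b, c ≥ 1` the quantum greedy basis `G` is the unique strongly positive basis which is
a lower bound of all strongly positive bases if and only if `G` is strongly positive. -/
theorem result (b c : ℕ) (hb : 0 < b) (hc : 0 < c) (X : ℤ → QTorus) (hX : IsClusterSeq b c X)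
    (G : ℤ × ℤ → QTorus) (hG : ∀ a, IsGreedy b c a (G a)) :
    (IsLowerBasis b c X G ∧ ∀ B, IsLowerBasis b c X B → B = G) ↔ IsStronglyPositive b c X G := by
  constructor
  · intro h
    exact h.1.1
  · intro hSP
    have hlow : IsLowerBasis b c X G :=
      ⟨hSP, fun B' hB' a => greedy_le_local hb hc hX hG hB' a
        fun p q _ _ _ m => sp_nonneg hb hc hX hSP _ m⟩
    refine ⟨hlow, fun B hB => ?_⟩
    funext a
    exact CoefLE.antisymm (hB.2 G hSP a) (hlow.2 B hB.1 a)

end Pool.Agent.Results.MP_c41774_al.LowerIff
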