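import Pool.Agent.Work.MP_c41774_al.Base

/-!
# Quantum binomial coefficients and their generating functions
-/

noncomputable section

namespace Pool.Agent.Work.MP_c41774_al

open LaurentPolynomial Finset

theorem NN_zero : NN 0 := fun n => by simp

theorem NN_T (m : ℤ) : NN (T m) := fun n => by
  rw [T_apply]; split_ifs <;> simp

theorem NN_one : NN 1 := by simpa using NN_T 0

theorem NN.add {f g : R} (hf : NN f) (hg : NN g) : NN (f + g) := fun n => by
  rw [AddMonoidAlgebra.coeff_add]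
  exact add_nonneg (hf n) (hg n)

theorem NN.sum {ι : Type*} {s : Finset ι} {f : ι → R} (h : ∀ i ∈ s, NN (f i)) :
    NN (∑ i ∈ s, f i) := by
  classical
  induction s using Finset.induction_on with
  | empty => simpa using NN_zero
  | insert a s ha ih =>
    rw [Finset.sum_insert ha]
    exact (h a (by simp)).add (ih fun i hi => h i (by simp [hi]))

theorem NN.mul {f g : R} (hf : NN f) (hg : NN g) : NN (f * g) := fun n => by
  classical
  rw [AddMonoidAlgebra.coeff_mul]
  refine Finset.sum_nonneg fun i _ => Finset.sum_nonneg fun j _ => ?_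
  dsimp only
  split_ifs
  · exact mul_nonneg (hf i) (hg j)
  · exact le_rfl

theorem T_mul_coeff (m : ℤ) (f : R) (n : ℤ) : (T m * f).coeff n = f.coeff (n - m) := by
  rw [T, AddMonoidAlgebra.coeff_single_mul_apply, one_mul]
  congr 1; ring

theorem NN_T_mul {m : ℤ} {f : R} : NN (T m * f) ↔ NN f := by
  constructor
  · intro h n
    have := h (n + m)
    rw [T_mul_coeff] at this
    simpa using this
  · intro h
    exact (NN_T m).mul h

/-- `SG m f`: all exponents occurring in `f` are `≥ m`. -/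
def SG (m : ℤ) (f : R) : Prop := ∀ d : ℤ, f.coeff d ≠ 0 → m ≤ d

theorem SG_zero (m : ℤ) : SG m 0 := fun d hd => by simp at hd

theorem SG.mono {m m' : ℤ} {f : R} (h : SG m f) (hm : m' ≤ m) : SG m' f :=
  fun d hd => hm.trans (h d hd)

theorem SG_T (m : ℤ) : SG m (T m) := fun d hd => by
  rw [T_apply] at hd
  by_contra hlt
  apply hd
  rw [if_neg]
  rintro rfl
  exact hlt le_rfl

theorem SG.add {m : ℤ} {f g : R} (hf : SG m f) (hg : SG m g) : SG m (f + g) := fun d hd => by
  rw [AddMonoidAlgebra.coeff_add, Finsupp.add_apply] at hd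
  by_contra hlt
  apply hd
  have h1 : f.coeff d = 0 := by
    by_contra h; exact hlt (hf d h)
  have h2 : g.coeff d = 0 := by
    by_contra h; exact hlt (hg d h)
  rw [h1, h2, add_zero]

theorem SG.mul {m m' : ℤ} {f g : R} (hf : SG m f) (hg : SG m' g) : SG (m + m') (f * g) := by
  classical
  intro d hd
  by_contra hlt
  apply hd
  rw [AddMonoidAlgebra.coeff_mul]
  refine Finset.sum_eq_zero fun i hi => Finset.sum_eq_zero fun j hj => ?_
  dsimp only
  split_ifs with hij
  · have h1 := hf i (Finsupp.mem_support_iff.mp hi)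
    have h2 := hg j (Finsupp.mem_support_iff.mp hj)
    omega
  · rfl

theorem SG.T_mul {m k : ℤ} {f : R} (hf : SG m f) : SG (k + m) (T k * f) := (SG_T k).mul hf

/-- coefficientwise comparison of supports -/
theorem SG.of_le {m : ℤ} {f g : R} (hg : SG m g) (hf : NN f) (hfg : NN (g - f)) : SG m f := by
  intro d hd
  apply hg
  intro h0
  apply hd
  have h1 := hf d
  have h2 := hfg d
  rw [AddMonoidAlgebra.coeff_sub, Finsupp.sub_apply, h0] at h2
  omega

/-- A bar-invariant Laurent polynomial all of whose exponents are positive vanishes. -/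
theorem eq_zero_of_SG_invert {f : R} (hf : SG 1 f) (hinv : invert f = f) : f = 0 := by
  ext d
  simp only [AddMonoidAlgebra.coeff_zero, Finsupp.coe_zero, Pi.zero_apply]
  by_contra hd
  have h1 := hf d hd
  have h2 : f.coeff (-d) ≠ 0 := by
    rw [← hinv, invert_apply, neg_neg]; exact hd
  have := hf _ h2
  omega

/-! ### Quantum binomials -/

@[simp] theorem qb_zero_right (b : ℤ) (n : ℕ) : qb b n 0 = 1 := by
  cases n <;> rfl

@[simp] theorem qb_zero_succ (b : ℤ) (k : ℕ) : qb b 0 (k + 1) = 0 := rfl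

theorem qb_succ_succ (b : ℤ) (n k : ℕ) : qb b (n + 1) (k + 1) =
    T (b * ((k : ℤ) + 1)) * qb b n (k + 1) + T (-(b * ((n : ℤ) - k))) * qb b n k := rfl

theorem qb_eq_zero (b : ℤ) : ∀ (n k : ℕ), n < k → qb b n k = 0
  | _, 0, h => by omega
  | 0, _ + 1, _ => rfl
  | n + 1, k + 1, h => by
    rw [qb_succ_succ, qb_eq_zero b n (k + 1) (by omega), qb_eq_zero b n k (by omega)]
    simp

theorem qb_self (b : ℤ) (n : ℕ) : qb b n n = 1 := by
  induction n with
  | zero => rfl
  | succ n ih =>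
    rw [qb_succ_succ, qb_eq_zero b n (n + 1) (by omega), ih]
    simp

theorem NN_qb (b : ℤ) : ∀ (n k : ℕ), NN (qb b n k)
  | n, 0 => by simpa using NN_one
  | 0, _ + 1 => NN_zero
  | n + 1, k + 1 => by
    rw [qb_succ_succ]
    exact ((NN_T _).mul (NN_qb b n (k + 1))).add ((NN_T _).mul (NN_qb b n k))

/-- All exponents of `[n, k]_{v^b}` are `≥ -b k (n-k)`. -/
theorem SG_qb {b : ℤ} (hb : 0 ≤ b) : ∀ (n k : ℕ), SG (-(b * k * ((n : ℤ) - k))) (qb b n k)
  | n, 0 => by
    have := SG_T 0
    simpa using this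
  | 0, _ + 1 => SG_zero _
  | n + 1, k + 1 => by
    rcases Nat.lt_or_ge (n + 1) (k + 1) with h | h
    · rw [qb_eq_zero b _ _ h]; exact SG_zero _
    · rw [qb_succ_succ]
      have h' : (k : ℤ) ≤ n := by exact_mod_cast (by omega : k ≤ n)
      have hk : (0 : ℤ) ≤ k := by positivity
      refine SG.add ?_ ?_
      · refine (SG_qb hb n (k + 1)).T_mul.mono ?_
        push_cast
        nlinarith [mul_nonneg hb hk, mul_nonneg hb (sub_nonneg.mpr h')]
      · refine (SG_qb hb n k).T_mul.mono ?_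
        push_cast
        nlinarith

/-! ### Generating functions -/

open PowerSeries in
/-- `P_n(t) = Σ_k [n,k] t^k`. -/
def P (b : ℤ) (n : ℕ) : PowerSeries R := PowerSeries.mk (qb b n)

/-- the inverse series `Σ_k (-1)^k [n+k-1,k] t^k`. -/
def Pinv (b : ℤ) (n : ℕ) : PowerSeries R :=
  PowerSeries.mk fun k => (-1) ^ k * qb b (n + k - 1) k

@[simp] theorem coeff_P (b : ℤ) (n k : ℕ) : PowerSeries.coeff k (P b n) = qb b n k := by
  simp [P]

@[simp] theorem coeff_Pinv (b : ℤ) (n k : ℕ) :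
    PowerSeries.coeff k (Pinv b n) = (-1) ^ k * qb b (n + k - 1) k := by
  simp [Pinv]

theorem P_zero (b : ℤ) : P b 0 = 1 := by
  ext1 k
  cases k with
  | zero => simp
  | succ k => simp [PowerSeries.coeff_one]

theorem Pinv_zero (b : ℤ) : Pinv b 0 = 1 := by
  ext1 k
  cases k with
  | zero => simp
  | succ k =>
    rw [coeff_Pinv, qb_eq_zero b _ _ (by omega)]
    simp [PowerSeries.coeff_one]

/-- The linear series `1 + a t`. -/
def Lin (a : R) : PowerSeries R := 1 + PowerSeries.C a * PowerSeries.X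

theorem coeff_zero_Lin_mul (a : R) (f : PowerSeries R) :
    PowerSeries.coeff 0 (Lin a * f) = PowerSeries.coeff 0 f := by
  simp [Lin, add_mul, mul_assoc]

theorem coeff_succ_Lin_mul (a : R) (f : PowerSeries R) (k : ℕ) :
    PowerSeries.coeff (k + 1) (Lin a * f) =
      PowerSeries.coeff (k + 1) f + a * PowerSeries.coeff k f := by
  rw [Lin, add_mul, one_mul, mul_assoc, map_add, PowerSeries.coeff_C_mul, mul_comm PowerSeries.X,
      PowerSeries.coeff_succ_mul_X]

theorem coeff_Lin (a : R) (k : ℕ) :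
    PowerSeries.coeff k (Lin a) = if k = 0 then 1 else if k = 1 then a else 0 := by
  rw [← mul_one (Lin a)]
  rcases k with _ | _ | k
  · rw [coeff_zero_Lin_mul]; simp
  · rw [coeff_succ_Lin_mul]; simp [PowerSeries.coeff_one]
  · rw [coeff_succ_Lin_mul]; simp [PowerSeries.coeff_one]

theorem rescale_Lin (a c : R) : PowerSeries.rescale c (Lin a) = Lin (c * a) := by
  ext1 k
  rw [PowerSeries.coeff_rescale, coeff_Lin, coeff_Lin]
  rcases k with _ | _ | k <;> simp

/-- `P_{n+1}(t) = (1 + w^{-n} t) P_n(w t)`. -/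
theorem P_succ (b : ℤ) (n : ℕ) : P b (n + 1) =
    Lin (T (-(b * n))) * PowerSeries.rescale (T b) (P b n) := by
  ext1 k
  cases k with
  | zero =>
    rw [coeff_zero_Lin_mul, PowerSeries.coeff_rescale]
    simp only [coeff_P, qb_zero_right, pow_zero, mul_one]
  | succ k =>
    rw [coeff_succ_Lin_mul, PowerSeries.coeff_rescale, PowerSeries.coeff_rescale]
    simp only [coeff_P]
    rw [qb_succ_succ, T_pow, T_pow, ← mul_assoc (T (-(b * (n : ℤ)))), ← T_add]
    congr 3 <;> push_cast <;> ring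

/-- `(1 + w^{-n} t) Pinv_{n+1}(t) = Pinv_n(w t)`. -/
theorem Pinv_succ (b : ℤ) (n : ℕ) :
    Lin (T (-(b * n))) * Pinv b (n + 1) =
      PowerSeries.rescale (T b) (Pinv b n) := by
  ext1 k
  cases k with
  | zero =>
    rw [coeff_zero_Lin_mul, PowerSeries.coeff_rescale]
    simp only [coeff_Pinv, qb_zero_right, pow_zero, mul_one]
  | succ k =>
    rw [coeff_succ_Lin_mul, PowerSeries.coeff_rescale]
    simp only [coeff_Pinv]
    have e1 : n + 1 + (k + 1) - 1 = (n + k) + 1 := by omega
    have e2 : n + 1 + k - 1 = n + k := by omega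
    have e3 : n + (k + 1) - 1 = n + k := by omega
    rw [e1, e2, e3, qb_succ_succ, T_pow]
    have e4 : -(b * (((n + k : ℕ) : ℤ) - k)) = -(b * n) := by push_cast; ring
    have e5 : (((k + 1 : ℕ) : ℤ) * b) = b * ((k : ℤ) + 1) := by push_cast; ring
    rw [e4, e5]
    ring

theorem P_mul_Pinv (b : ℤ) (n : ℕ) : P b n * Pinv b n = 1 := by
  induction n with
  | zero => simp [P_zero, Pinv_zero]
  | succ n ih =>
    rw [P_succ, mul_comm _ (PowerSeries.rescale (T b) (P b n)), mul_assoc, Pinv_succ,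
      ← map_mul, ih, map_one]

/-- `P_n(t) = ∏_{i<n} (1 + w^{n-1-2i} t)`. -/
theorem P_eq_prod (b : ℤ) (n : ℕ) : P b n =
    ∏ i ∈ range n, Lin (T (b * ((n : ℤ) - 1 - 2 * i))) := by
  induction n with
  | zero => simp [P_zero]
  | succ n ih =>
    rw [P_succ, ih, Finset.prod_range_succ, mul_comm, map_prod]
    refine congrArg₂ (· * ·) ?_ ?_
    · refine Finset.prod_congr rfl fun i _ => ?_
      rw [rescale_Lin, ← T_add]
      congr 2; push_cast; ring
    · congr 2; push_cast; ring

/-- `P_{n₁}(w^{n₂} t) P_{n₂}(w^{-n₁} t) = P_{n₁+n₂}(t)`. -/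
theorem P_mul_P (b : ℤ) (n₁ n₂ : ℕ) :
    PowerSeries.rescale (T (b * n₂)) (P b n₁) * PowerSeries.rescale (T (-(b * n₁))) (P b n₂) =
      P b (n₁ + n₂) := by
  rw [P_eq_prod b n₁, P_eq_prod b n₂, P_eq_prod b (n₁ + n₂), Finset.prod_range_add, map_prod,
    map_prod]
  refine congrArg₂ (· * ·) ?_ ?_
  · refine Finset.prod_congr rfl fun i _ => ?_
    rw [rescale_Lin, ← T_add]
    congr 2; push_cast; ring
  · refine Finset.prod_congr rfl fun i _ => ?_
    rw [rescale_Lin, ← T_add]
    congr 2; push_cast; ring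

/-- coefficientwise bar involution on power series -/
abbrev barPS : PowerSeries R →+* PowerSeries R :=
  PowerSeries.map ((invert : R ≃ₐ[ℤ] R) : R →+* R)

theorem barPS_Lin (a : R) : barPS (Lin a) = Lin (invert a) := by
  ext1 k
  rw [PowerSeries.coeff_map, coeff_Lin, coeff_Lin]
  rcases k with _ | _ | k <;> simp

theorem barPS_P (b : ℤ) (n : ℕ) : barPS (P b n) = P b n := by
  rw [P_eq_prod, map_prod, ← Finset.prod_range_reflect]
  refine Finset.prod_congr rfl fun i hi => ?_
  rw [barPS_Lin, invert_T]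
  have := Finset.mem_range.mp hi
  congr 2
  push_cast [Nat.cast_sub (by omega : i ≤ n - 1), Nat.cast_sub (by omega : 1 ≤ n)]
  ring

/-- quantum binomials are bar-invariant -/
theorem invert_qb (b : ℤ) (n k : ℕ) : invert (qb b n k) = qb b n k := by
  have := congrArg (PowerSeries.coeff k) (barPS_P b n)
  rw [PowerSeries.coeff_map] at this
  simpa using this

theorem barPS_Pinv (b : ℤ) (n : ℕ) : barPS (Pinv b n) = Pinv b n := by
  ext1 k
  rw [PowerSeries.coeff_map, coeff_Pinv]
  simp [invert_qb]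

/-- the quantum integer `[n]_w = Σ_{i<n} w^{n-1-2i}`, `w = v^b` -/
def qi (b : ℤ) (n : ℕ) : R := ∑ i ∈ range n, T (b * ((n : ℤ) - 1 - 2 * i))

/-- `[n]_w (w - w⁻¹) = w^n - w^{-n}`, where `w = v^b`. -/
theorem qi_mul (b : ℤ) (n : ℕ) : qi b n * (T b - T (-b)) = T (b * n) - T (-(b * n)) := by
  have key : ∀ m : ℕ, (∑ i ∈ range m, (T (b * ((n : ℤ) - 1 - 2 * i)) : R)) * (T b - T (-b)) =
      T (b * n) - T (b * ((n : ℤ) - 2 * m)) := by
    intro m
    induction m with
    | zero => simp
    | succ m ih =>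
      rw [Finset.sum_range_succ, add_mul, ih, mul_sub (T _) (T b) (T (-b)), ← T_add, ← T_add]
      have e1 : b * ((n : ℤ) - 1 - 2 * (m : ℤ)) + b = b * ((n : ℤ) - 2 * m) := by ring
      have e2 : b * ((n : ℤ) - 1 - 2 * (m : ℤ)) + -b =
        b * ((n : ℤ) - 2 * ((m + 1 : ℕ) : ℤ)) := by push_cast; ring
      rw [e1, e2]
      ring
  have := key n
  rw [qi, this]
  congr 2; ring

/-- `[n,k+1] (w^{k+1} - w^{-(k+1)}) = [n,k] (w^{n-k} - w^{-(n-k)})`. -/
theorem qb_step (b : ℤ) : ∀ n k : ℕ,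
    qb b n (k + 1) * (T (b * ((k : ℤ) + 1)) - T (-(b * ((k : ℤ) + 1)))) =
      qb b n k * (T (b * ((n : ℤ) - k)) - T (-(b * ((n : ℤ) - k)))) := by
  intro n
  induction n with
  | zero =>
    intro k
    cases k with
    | zero => simp
    | succ k => simp
  | succ n ih =>
    intro k
    have h1 : qb b (n + 1) (k + 1) * (T (b * ((k : ℤ) + 1)) - T (-(b * ((k : ℤ) + 1)))) =
        qb b n k * (T (b * ((n : ℤ) + 1)) - T (-(b * ((n : ℤ) + 1)))) := by
      rw [qb_succ_succ, add_mul, mul_assoc, ih k]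
      have e1 : (T (b * ((k : ℤ) + 1)) : R) *
          (qb b n k * (T (b * ((n : ℤ) - k)) - T (-(b * ((n : ℤ) - k))))) +
          T (-(b * ((n : ℤ) - k))) * qb b n k *
            (T (b * ((k : ℤ) + 1)) - T (-(b * ((k : ℤ) + 1)))) =
          qb b n k * (T (b * ((k : ℤ) + 1)) * T (b * ((n : ℤ) - k)) -
            T (-(b * ((n : ℤ) - k))) * T (-(b * ((k : ℤ) + 1)))) := by ring
      rw [e1, ← T_add, ← T_add]
      congr 3 <;> ring
    rw [h1]
    cases k with
    | zero => push_cast; simp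
    | succ k =>
      rw [qb_succ_succ, add_mul]
      have hk := ih k
      have e2 : b * (((n + 1 : ℕ) : ℤ) - ((k + 1 : ℕ) : ℤ)) = b * ((n : ℤ) - k) := by
        push_cast; ring
      rw [e2, mul_assoc (T (-(b * ((n : ℤ) - k)))), ← hk]
      have e3 : (T (b * ((k : ℤ) + 1)) : R) * qb b n (k + 1) *
          (T (b * ((n : ℤ) - k)) - T (-(b * ((n : ℤ) - k)))) +
          T (-(b * ((n : ℤ) - k))) *
          (qb b n (k + 1) * (T (b * ((k : ℤ) + 1)) - T (-(b * ((k : ℤ) + 1))))) =
          qb b n (k + 1) * (T (b * ((k : ℤ) + 1)) * T (b * ((n : ℤ) - k)) -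
            T (-(b * ((n : ℤ) - k))) * T (-(b * ((k : ℤ) + 1)))) := by ring
      rw [e3, ← T_add, ← T_add]
      congr 3 <;> ring

theorem T_sub_T_ne_zero {b : ℤ} (hb : b ≠ 0) : (T b - T (-b) : R) ≠ 0 := by
  intro h
  have := congrArg (fun f : R => f.coeff b) h
  simp only [AddMonoidAlgebra.coeff_sub, Finsupp.sub_apply, T_apply, AddMonoidAlgebra.coeff_zero,
    Finsupp.coe_zero, Pi.zero_apply, if_true] at this
  rw [if_neg (by omega)] at this
  simp at this

/-- The product formula: `[n,k]_w · ∏_{i=1}^k [i]_w = ∏_{i=0}^{k-1} [n-i]_w`. -/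
theorem qb_mul_prod {b : ℤ} (hb : b ≠ 0) (n : ℕ) : ∀ k : ℕ, k ≤ n →
    qb b n k * ∏ i ∈ range k, qi b (i + 1) = ∏ i ∈ range k, qi b (n - i) := by
  intro k
  induction k with
  | zero => intro _; simp
  | succ k ih =>
    intro hk
    rw [Finset.prod_range_succ, Finset.prod_range_succ, ← ih (by omega)]
    have hne := T_sub_T_ne_zero hb
    have h1 := qi_mul b (k + 1)
    have h2 := qi_mul b (n - k)
    have h3 := qb_step b n k
    push_cast [Nat.cast_sub (by omega : k ≤ n)] at h1 h2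
    rw [← h1, ← h2] at h3
    have h4 : qb b n (k + 1) * qi b (k + 1) = qb b n k * qi b (n - k) := by
      apply mul_right_cancel₀ hne
      linear_combination h3
    linear_combination (∏ i ∈ range k, qi b (i + 1)) * h4

end Pool.Agent.Work.MP_c41774_al
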