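import Pool.Agent.Work.MP_c41774_al.Base

/-!
# The based quantum torus

`QTorus = ℤ[v^{±1}]⟨X₁^{±1}, X₂^{±1}⟩` with `X₂ X₁ = v² X₁ X₂`, realised on the basis
`X^{(m₁,m₂)} = v^{m₁ m₂} X₁^{m₁} X₂^{m₂}`, whose product is
`X^m X^{m'} = v^{m₂ m'₁ - m₁ m'₂} X^{m+m'}`.
-/

noncomputable section

namespace Pool.Agent.Work.MP_c41774_al

open LaurentPolynomial

/-- Underlying module of the quantum torus: finitely supported functions `m ↦` coefficient of
`X^m`. -/
def QTorus : Type := (ℤ × ℤ) →₀ R

namespace QTorus

instance : AddCommGroup QTorus := inferInstanceAs (AddCommGroup ((ℤ × ℤ) →₀ R))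
instance : Module R QTorus := inferInstanceAs (Module R ((ℤ × ℤ) →₀ R))
instance : FunLike QTorus (ℤ × ℤ) R := inferInstanceAs (FunLike ((ℤ × ℤ) →₀ R) (ℤ × ℤ) R)

/-- The exponent of `v` in `X^m X^{m'}`. -/
def Lam (m m' : ℤ × ℤ) : ℤ := m.2 * m'.1 - m.1 * m'.2

/-- `r X^m` -/
def mon (m : ℤ × ℤ) (r : R) : QTorus := Finsupp.single m r

/-- The product: `(∑ r_m X^m) (∑ s_{m'} X^{m'}) = ∑ v^{Lam m m'} r_m s_{m'} X^{m+m'}`. -/
instance : Mul QTorus :=
  ⟨fun x y => Finsupp.sum x fun m r => Finsupp.sum y fun m' s =>
    mon (m + m') (T (Lam m m') * (r * s))⟩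

instance : One QTorus := ⟨mon 0 1⟩

theorem Lam_add_left (m m' m'' : ℤ × ℤ) : Lam (m + m') m'' = Lam m m'' + Lam m' m'' := by
  simp only [Lam, Prod.fst_add, Prod.snd_add]; ring

theorem Lam_add_right (m m' m'' : ℤ × ℤ) : Lam m (m' + m'') = Lam m m' + Lam m m'' := by
  simp only [Lam, Prod.fst_add, Prod.snd_add]; ring

theorem one_def : (1 : QTorus) = mon 0 1 := rfl

theorem mon_zero (m : ℤ × ℤ) : mon m 0 = 0 := Finsupp.single_zero m

theorem mon_add (m : ℤ × ℤ) (r s : R) : mon m (r + s) = mon m r + mon m s :=
  Finsupp.single_add m r s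

theorem smul_mon (m : ℤ × ℤ) (r s : R) : r • mon m s = mon m (r * s) :=
  Finsupp.smul_single r m s

@[elab_as_elim]
theorem induction {p : QTorus → Prop} (x : QTorus) (h0 : p 0)
    (hadd : ∀ x y, p x → p y → p (x + y)) (hmon : ∀ m r, p (mon m r)) : p x :=
  Finsupp.induction_linear x h0 hadd hmon

private theorem zero_mul' (y : QTorus) : (0 : QTorus) * y = 0 := Finsupp.sum_zero_index

private theorem mul_zero' (x : QTorus) : x * (0 : QTorus) = 0 := by
  show Finsupp.sum x (fun m r => Finsupp.sum (0 : (ℤ × ℤ) →₀ R) fun m' s =>
    mon (m + m') (T (Lam m m') * (r * s))) = 0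
  simp only [Finsupp.sum_zero_index]
  exact Finset.sum_const_zero

private theorem right_distrib' (x y z : QTorus) : (x + y) * z = x * z + y * z := by
  refine Finsupp.sum_add_index' (fun m => ?_) (fun m r s => ?_)
  · simp only [zero_mul, mul_zero, mon_zero]
    exact Finset.sum_const_zero
  · simp only [add_mul, mul_add, mon_add]
    exact Finset.sum_add_distrib

private theorem left_distrib' (x y z : QTorus) : x * (y + z) = x * y + x * z := by
  have h : ∀ m r, (Finsupp.sum (y + z) fun m' s => mon (m + m') (T (Lam m m') * (r * s))) =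
      (Finsupp.sum y fun m' s => mon (m + m') (T (Lam m m') * (r * s))) +
      (Finsupp.sum z fun m' s => mon (m + m') (T (Lam m m') * (r * s))) := fun m r =>
    Finsupp.sum_add_index' (fun m' => by simp only [mul_zero, mon_zero])
      (fun m' s s' => by simp only [mul_add, mon_add])
  show (Finsupp.sum x fun m r => Finsupp.sum (y + z) fun m' s =>
    mon (m + m') (T (Lam m m') * (r * s))) = _
  simp only [h]
  exact Finset.sum_add_distrib

theorem mon_mul_mon (m m' : ℤ × ℤ) (r s : R) :
    mon m r * mon m' s = mon (m + m') (T (Lam m m') * (r * s)) := by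
  have h1 : mon m r * mon m' s = Finsupp.sum (mon m' s) fun m' s =>
      mon (m + m') (T (Lam m m') * (r * s)) :=
    Finsupp.sum_single_index (by
      simp only [zero_mul, mul_zero, mon_zero]
      exact Finset.sum_const_zero)
  rw [h1]
  exact Finsupp.sum_single_index (by simp only [mul_zero, mon_zero])

instance : Ring QTorus :=
  { (inferInstance : AddCommGroup QTorus) with
    mul := (· * ·)
    one := 1
    left_distrib := left_distrib'
    right_distrib := right_distrib'
    zero_mul := zero_mul'
    mul_zero := mul_zero'
    one_mul := fun x => by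
      show (1 : QTorus) * x = x
      induction x using induction with
      | h0 => exact mul_zero' _
      | hadd x y hx hy => rw [left_distrib', hx, hy]
      | hmon m r =>
        rw [one_def, mon_mul_mon]
        simp [Lam]
    mul_one := fun x => by
      show x * (1 : QTorus) = x
      induction x using induction with
      | h0 => exact zero_mul' _
      | hadd x y hx hy => rw [right_distrib', hx, hy]
      | hmon m r =>
        rw [one_def, mon_mul_mon]
        simp [Lam]
    mul_assoc := fun x y z => by
      show x * y * z = x * (y * z)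
      induction x using induction with
      | h0 => rw [zero_mul', zero_mul', zero_mul']
      | hadd x x' hx hx' => rw [right_distrib', right_distrib', right_distrib', hx, hx']
      | hmon m r =>
        induction y using induction with
        | h0 => rw [zero_mul', mul_zero', zero_mul']
        | hadd y y' hy hy' =>
          rw [left_distrib', right_distrib', right_distrib', left_distrib', hy, hy']
        | hmon m' r' =>
          induction z using induction with
          | h0 => rw [mul_zero', mul_zero', mul_zero']
          | hadd z z' hz hz' => rw [left_distrib', left_distrib', left_distrib', hz, hz']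
          | hmon m'' r'' =>
            rw [mon_mul_mon, mon_mul_mon, mon_mul_mon, mon_mul_mon, add_assoc]
            congr 1
            rw [Lam_add_left, Lam_add_right, T_add, T_add]
            ring }

private theorem smul_mul' (r : R) (x y : QTorus) : r • x * y = r • (x * y) := by
  induction x using induction with
  | h0 => rw [smul_zero, zero_mul, smul_zero]
  | hadd x x' hx hx' => rw [smul_add, add_mul, hx, hx', add_mul, smul_add]
  | hmon m s =>
    induction y using induction with
    | h0 => rw [mul_zero, mul_zero, smul_zero]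
    | hadd y y' hy hy' => rw [mul_add, mul_add, smul_add, hy, hy']
    | hmon m' s' =>
      rw [smul_mon, mon_mul_mon, mon_mul_mon, smul_mon]
      congr 1; ring

private theorem mul_smul' (r : R) (x y : QTorus) : x * r • y = r • (x * y) := by
  induction x using induction with
  | h0 => rw [zero_mul, zero_mul, smul_zero]
  | hadd x x' hx hx' => rw [add_mul, add_mul, hx, hx', smul_add]
  | hmon m s =>
    induction y using induction with
    | h0 => rw [smul_zero, mul_zero, smul_zero]
    | hadd y y' hy hy' => rw [smul_add, mul_add, mul_add, smul_add, hy, hy']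
    | hmon m' s' =>
      rw [smul_mon, mon_mul_mon, mon_mul_mon, smul_mon]
      congr 1; ring

instance : Algebra R QTorus := Algebra.ofModule smul_mul' mul_smul'

/-- the generator `X₁` -/
def X1 : QTorus := mon (1, 0) 1

/-- the generator `X₂` -/
def X2 : QTorus := mon (0, 1) 1

/-- The bar involution: `v ↦ v⁻¹` on coefficients and `X^m ↦ X^m`. It is the anti-automorphism
fixing `X₁` and `X₂`: see `bar_mul`, `bar_X1`, `bar_X2` in `QTorus.lean`. -/
def bar (x : QTorus) : QTorus := Finsupp.mapRange invert (map_zero _) x

end QTorus

end Pool.Agent.Work.MP_c41774_al
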